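import Pool.Agent.U156.OS.MerBoth
import Pool.Agent.U156.OS.EKRes
import Pool.Agent.U745.SC.Sys

/-!
# The function `exp (∑ N(q) q^{-s} / n)` of a family of numbers
-/

set_option autoImplicit false

open Complex Filter Topology

namespace Pool.Agent.U998.OQ

open Pool.Agent.U745.SC Pool.Agent.U156.OS

/-- the series `∑ N(q) / n q^{-s}` -/
noncomputable def LN (N : Nat.Primes × ℕ → ℕ) (s : ℂ) : ℂ :=
  ∑' i : Nat.Primes × ℕ, (N i : ℂ) / (i.2 + 1) * ((((i.1 : ℕ) : ℂ) ^ (i.2 + 1)) ^ (-s))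

/-- the zeta function of the numbers `N(q)` -/
noncomputable def ZN (N : Nat.Primes × ℕ → ℕ) (s : ℂ) : ℂ := Complex.exp (LN N s)

/-- the series `∑ N(q) / n q^{-σ}` converges for `σ > e` -/
def Cv (N : Nat.Primes × ℕ → ℕ) (e : ℝ) : Prop :=
  ∀ σ : ℝ, e < σ → Summable fun i : Nat.Primes × ℕ =>
    (N i : ℝ) / (i.2 + 1) * ((((i.1 : ℕ) : ℝ) ^ (i.2 + 1)) ^ (-σ))

lemma pp_cast (i : Nat.Primes × ℕ) : ((pp i : ℕ) : ℂ) = (((i.1 : ℕ) : ℂ) ^ (i.2 + 1)) := by
  unfold pp; push_cast; rfl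

lemma pp_castR (i : Nat.Primes × ℕ) : ((pp i : ℕ) : ℝ) = (((i.1 : ℕ) : ℝ) ^ (i.2 + 1)) := by
  unfold pp; push_cast; rfl

lemma term_norm (N : Nat.Primes × ℕ → ℕ) (s : ℂ) (i : Nat.Primes × ℕ) :
    ‖(N i : ℂ) / (i.2 + 1) * ((((i.1 : ℕ) : ℂ) ^ (i.2 + 1)) ^ (-s))‖ =
      (N i : ℝ) / (i.2 + 1) * ((((i.1 : ℕ) : ℝ) ^ (i.2 + 1)) ^ (-s.re)) := by
  rw [norm_mul, norm_div, ← pp_cast, ← pp_castR, Complex.norm_natCast_cpow_of_pos (pp_pos i)]
  have h1 : ‖((i.2 : ℂ) + 1)‖ = (i.2 : ℝ) + 1 := by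
    have : ((i.2 : ℂ) + 1) = ((i.2 + 1 : ℕ) : ℂ) := by push_cast; rfl
    rw [this, Complex.norm_natCast]
    push_cast
    rfl
  rw [h1, Complex.norm_natCast, Complex.neg_re]

lemma term_eq_exp (N : Nat.Primes × ℕ → ℕ) (s : ℂ) (i : Nat.Primes × ℕ) :
    (N i : ℂ) / (i.2 + 1) * ((((i.1 : ℕ) : ℂ) ^ (i.2 + 1)) ^ (-s)) =
      (N i : ℂ) / (i.2 + 1) * Complex.exp (-(zlam i * s)) := by
  rw [exp_zlam, pp_cast]

lemma LN_diff {N : Nat.Primes × ℕ → ℕ} {e : ℝ} (h : Cv N e) : DifferentiableOn ℂ (LN N) (HP e) := by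
  intro s hs
  have hs' : e < s.re := hs
  obtain ⟨σ, h1, h2⟩ := exists_between hs'
  have hd : DifferentiableOn ℂ (LN N) (HP σ) := by
    unfold LN
    refine differentiableOn_tsum_of_summable_norm (h σ h1) (fun i => ?_) (HP_open σ) (fun i w hw => ?_)
    · have : (fun w : ℂ => (N i : ℂ) / (i.2 + 1) * ((((i.1 : ℕ) : ℂ) ^ (i.2 + 1)) ^ (-w))) =
          fun w : ℂ => (N i : ℂ) / (i.2 + 1) * Complex.exp (-(zlam i * w)) := by
        funext w
        exact term_eq_exp N w i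
      rw [this]
      fun_prop
    · rw [term_norm]
      refine mul_le_mul_of_nonneg_left ?_ (by positivity)
      rw [← pp_castR]
      refine Real.rpow_le_rpow_of_exponent_le ?_ ?_
      · exact_mod_cast pp_pos i
      · have : σ < w.re := hw
        linarith
  exact (hd.differentiableAt ((HP_open σ).mem_nhds h2)).differentiableWithinAt

lemma ZN_diff {N : Nat.Primes × ℕ → ℕ} {e : ℝ} (h : Cv N e) : DifferentiableOn ℂ (ZN N) (HP e) :=
  (LN_diff h).cexp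

lemma ZN_conj (N : Nat.Primes × ℕ → ℕ) (s : ℂ) :
    ZN N ((starRingEnd ℂ) s) = (starRingEnd ℂ) (ZN N s) := by
  unfold ZN LN
  rw [← Complex.exp_conj, Complex.conj_tsum]
  congr 1
  refine tsum_congr fun i => ?_
  rw [term_eq_exp, term_eq_exp, map_mul, map_div₀, ← Complex.exp_conj]
  simp

/-- an extension which agrees with `f` far to the right is an extension -/
lemma mer_fix {f g : ℂ → ℂ} {e c : ℝ} (hf : DifferentiableOn ℂ f (HP e)) (hce : c < e)
    (hg : MeromorphicOn g (HP c)) {σ : ℝ} (h : ∀ s : ℂ, σ < s.re → g s = f s) : MerH f e c := by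
  refine ⟨toMeromorphicNFOn g (HP c), (meromorphicNFOn_toMeromorphicNFOn g (HP c)).meromorphicOn, fun s hs => ?_⟩
  have hsub : HP e ⊆ HP c := fun s hs => lt_trans hce hs
  have hsE : s ∈ HP e := hs
  obtain ⟨a, ha⟩ : ∃ a : ℝ, a = max e σ + 1 := ⟨_, rfl⟩
  have haE : (a : ℂ) ∈ HP e := by
    show e < (a : ℂ).re
    rw [Complex.ofReal_re, ha]
    linarith [le_max_left e σ]
  have haσ : σ < (a : ℂ).re := by
    rw [Complex.ofReal_re, ha]
    linarith [le_max_right e σ]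
  have h0 : g =ᶠ[𝓝[≠] (a : ℂ)] f := by
    have : g =ᶠ[𝓝 (a : ℂ)] f := by
      filter_upwards [(HP_open σ).mem_nhds haσ] with z hz
      exact h z hz
    exact this.filter_mono nhdsWithin_le_nhds
  have hfa : ∀ t ∈ HP e, AnalyticAt ℂ f t := hf.analyticOnNhd (HP_open e)
  have h1 : g =ᶠ[𝓝[≠] s] f := mer_ident ⟨⟨a, haE⟩, HP_pre e⟩ (fun t ht => hg t (hsub ht))
    (fun t ht => (hfa t ht).meromorphicAt) haE h0 hsE
  have h2 : toMeromorphicNFOn g (HP c) =ᶠ[𝓝[≠] s] f :=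
    (MeromorphicOn.toMeromorphicNFOn_eq_self_on_nhdsNE hg (hsub hsE)).trans h1
  exact ((MeromorphicNFAt.eventuallyEq_nhdsNE_iff_eventuallyEq_nhds
    (meromorphicNFOn_toMeromorphicNFOn g (HP c) (hsub hsE)) (hfa s hsE).meromorphicNFAt).1 h2).eq_of_nhds

/-- numbers of polynomial growth -/
lemma Cv_of_le {N : Nat.Primes × ℕ → ℕ} {C k : ℕ} (h : ∀ i, N i ≤ C * pp i ^ k) : Cv N (k + 1) := by
  intro σ hσ
  have h1 : Summable fun m : ℕ => (C : ℝ) * (m : ℝ) ^ ((k : ℝ) - σ) := by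
    refine Summable.mul_left _ (Real.summable_nat_rpow.2 ?_)
    linarith
  have h2 := h1.comp_injective pp_injective
  refine Summable.of_nonneg_of_le (fun i => by positivity) (fun i => ?_) h2
  simp only [Function.comp_apply]
  have hp : (0 : ℝ) < (pp i : ℝ) := by exact_mod_cast pp_pos i
  rw [← pp_castR, sub_eq_add_neg, Real.rpow_add hp, ← mul_assoc]
  refine mul_le_mul_of_nonneg_right ?_ (by positivity)
  have h3 : (N i : ℝ) ≤ (C : ℝ) * (pp i : ℝ) ^ k := by exact_mod_cast h i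
  rw [Real.rpow_natCast]
  refine le_trans (div_le_self (by positivity) ?_) h3
  have : (0 : ℝ) ≤ i.2 := Nat.cast_nonneg _
  linarith

/-- the zeta function of a scheme in terms of the numbers of points -/
lemma zeta_ZN {X : AlgebraicGeometry.Scheme.{0}} {C k : ℕ} (hb : Pool.Agent.Q193.Zeta.Bounded X C k)
    (f : X ⟶ AlgebraicGeometry.Spec (CommRingCat.of ℤ)) [AlgebraicGeometry.LocallyOfFiniteType f] {s : ℂ}
    (hs : (k : ℝ) + 1 < s.re) : Pool.Agent.Q193.Zeta.zeta X s = ZN (points X) s := by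
  rw [Pool.Agent.Q193.Zeta.zeta_eq hb f hs, lz_eq hb]
  unfold ZN LN
  congr 1
  refine tsum_congr fun i => ?_
  rw [term_eq_exp]
  rfl

lemma points_le {X : AlgebraicGeometry.Scheme.{0}} {C k : ℕ} (hb : Pool.Agent.Q193.Zeta.Bounded X C k)
    (i : Nat.Primes × ℕ) : points X i ≤ C * pp i ^ k := by
  have : Fact (i.1 : ℕ).Prime := ⟨i.1.2⟩
  have hK : Nat.card (GaloisField i.1 (i.2 + 1)) = (i.1 : ℕ) ^ (i.2 + 1) :=
    GaloisField.card _ _ (Nat.succ_ne_zero _)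
  have : Finite (GaloisField i.1 (i.2 + 1)) := inferInstance
  have h2 := (hb (GaloisField i.1 (i.2 + 1))).2
  have h3 : points X i = Nat.card (Pool.Agent.Q193.Zeta.Pt X (GaloisField i.1 (i.2 + 1))) :=
    Nat.card_congr (AlgebraicGeometry.Scheme.SpecToEquivOfField _ X)
  rw [h3]
  rw [hK] at h2
  exact h2

end Pool.Agent.U998.OQ
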