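import Pool.Agent.U156.OS.EKRes
import Pool.Agent.U156.OS.MerBoth

/-!
# Products of powers of `L`-functions of elliptic curves over number fields
-/

set_option autoImplicit false

open Complex Filter Topology Finset NumberField IsDedekindDomain

namespace Pool.Agent.U998.OQ

open Pool.Agent.U156.OS
open Pool.Agent.TH339.MP Pool.Agent.TH345.ET

section
variable {K : Type} [Field K] [NumberField K]

lemma elf_ne (W : HeightOneSpectrum (𝓞 K) → WeierstrassCurve (𝓞 K)) (v : HeightOneSpectrum (𝓞 K)) {s : ℂ}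
    (hs : 3 / 2 ≤ s.re) : elf W v s ≠ 0 := by
  unfold elf lfac
  refine inv_ne_zero (den_ne (two_le_nm v) (av_triv W v) ?_ hs)
  split_ifs
  · simp
  · simp

/-- the product does not vanish -/
lemma LE_ne (W : HeightOneSpectrum (𝓞 K) → WeierstrassCurve (𝓞 K)) (s : ℂ) (hs : 3 / 2 < s.re) :
    LE W s ≠ 0 := by
  obtain ⟨b, hb, h⟩ := LE_hasProd W
  rw [(h s hs).2]
  refine mul_ne_zero ?_ (Complex.exp_ne_zero _)
  unfold hE
  rw [Finset.prod_ne_zero_iff]
  intro v _
  rw [sub_add_cancel]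
  exact elf_ne W v hs.le

end

section
variable {ι : Type} [Fintype ι] {K : ι → Type} [∀ i, Field (K i)] [∀ i, NumberField (K i)]

/-- the product -/
noncomputable def LP (W : ∀ i, HeightOneSpectrum (𝓞 (K i)) → WeierstrassCurve (𝓞 (K i))) (m : ι → ℤ) (s : ℂ) : ℂ :=
  ∏ i, LE (W i) s ^ m i

variable (W : ∀ i, HeightOneSpectrum (𝓞 (K i)) → WeierstrassCurve (𝓞 (K i))) (m : ι → ℤ)

lemma LP_diff : DifferentiableOn ℂ (LP W m) (HP (3 / 2)) := by
  unfold LP
  refine DifferentiableOn.fun_finsetProd fun i _ => ?_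
  refine DifferentiableOn.zpow (LE_diff (W i)) (Or.inl fun s hs => LE_ne (W i) s hs)

lemma LP_conj (s : ℂ) (hs : 3 / 2 < s.re) : LP W m ((starRingEnd ℂ) s) = (starRingEnd ℂ) (LP W m s) := by
  unfold LP
  rw [map_prod]
  refine Finset.prod_congr rfl fun i _ => ?_
  rw [map_zpow₀, LE_conj (W i) s hs]

lemma LP_ne (s : ℂ) (hs : 3 / 2 < s.re) : LP W m s ≠ 0 := by
  unfold LP
  rw [Finset.prod_ne_zero_iff]
  intro i _
  exact zpow_ne_zero _ (LE_ne (W i) s hs)

end

end Pool.Agent.U998.OQ
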